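import Pool.Agent.Run7.h615.MT.P8
import Pool.Agent.Run7.h457.MT.Tann

/-!
# Project MT457, piece P11g: `Good` implies the Mumford-Tate conjecture
-/

set_option autoImplicit false

namespace Run7.h576.MT

open Matrix Filter Topology
open Run7.h457.MT Run7.h615.MT
open Run7.h475.MT (t_SPAN t_LIE ext_map ext_rat t_LOGEX mt_lie mt_mem mt_mem')

section

variable {ℓ : ℕ} [Fact ℓ.Prime] {Γ : Type} [Group Γ] {T : Type} [Fintype T] [DecidableEq T]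
  {d : T → ℕ} (B : ∀ t, LLV (d t)) (W : ∀ t, (B t).Hodge)
  (G : ∀ t i, Γ →* Matrix (Fin ((B t).n i)) (Fin ((B t).n i)) ℚ_[ℓ])

/-- The Lie algebra of the image of the Galois group on a good object. -/
theorem galLie_good (hd : ∀ t, 2 ≤ d t) (hG : LogRel B G)
    (hM : MTTwo B W (fun t i σ => G t i σ)) (M : Obj ℓ Γ)
    (E : Matrix (Σ t, Fin ((B t).n 2)) (Σ t, Fin ((B t).n 2)) ℚ →ₗ[ℚ] Matrix M.κ M.κ ℚ)
    (hE : LieOn (mtLie (D2 B W) (D2' B W)) E)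
    (h : ∀ N : ℕ, ∃ Δ : Subgroup Γ, Δ.FiniteIndex ∧ ∀ σ ∈ Δ, NearOne N (M.ρ σ) ∧
      ∀ L, IsLog (Matrix.blockDiagonal' fun t => G t 2 σ) L →
        IsLog (M.ρ σ) (ext ℚ_[ℓ] E L)) :
    galLie M.ρ = ratSpan ℚ_[ℓ]
      (mtLie (ext ℂ E (D2 B W)) (ext ℂ E (D2' B W)) : Set (Matrix M.κ M.κ ℚ)) := by
  obtain ⟨Δ₀, hΔ₀, h0⟩ := h 0
  obtain ⟨Δ₁, hΔ₁, h1⟩ := hG 2
  obtain ⟨Δ, hΔdef⟩ : ∃ Δ : Subgroup Γ, Δ = Δ₀ ⊓ Δ₁ := ⟨_, rfl⟩
  have hΔ : Δ.FiniteIndex := by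
    rw [hΔdef]
    infer_instance
  have hlog : ∀ σ ∈ Δ, ∃ L, IsLog (Matrix.blockDiagonal' fun t => G t 2 σ) L := by
    intro σ hσ
    rw [hΔdef] at hσ
    have hl : ∀ t, ∃ L, IsLog (G t 2 σ) L := fun t =>
      t_LOGEX ℓ _ (G t 2 σ) (h1 σ hσ.2 t 2 (hd t)).1
    choose L hL using hl
    exact ⟨_, block_log _ _ hL⟩
  have e1 := galLie_finite (M.ρ : Γ → Matrix M.κ M.κ ℚ_[ℓ]) (map_one M.ρ) (map_mul M.ρ) Δ
  have e2 := galLie_finite (fun σ => Matrix.blockDiagonal' fun t => G t 2 σ)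
    (by
      have h3 : (fun t => G t 2 (1 : Γ)) = 1 := by
        funext t
        exact map_one _
      show Matrix.blockDiagonal' (fun t => G t 2 (1 : Γ)) = 1
      rw [h3, Matrix.blockDiagonal'_one])
    (by
      intro σ σ'
      show Matrix.blockDiagonal' (fun t => G t 2 (σ * σ')) =
        Matrix.blockDiagonal' (fun t => G t 2 σ) * Matrix.blockDiagonal' (fun t => G t 2 σ')
      rw [← Matrix.blockDiagonal'_mul]
      congr 1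
      funext t
      exact map_mul _ _ _) Δ
  have e3 : {L | ∃ σ ∈ Δ, IsLog (M.ρ σ) L} = ext ℚ_[ℓ] E ''
      {L | ∃ σ ∈ Δ, IsLog (Matrix.blockDiagonal' fun t => G t 2 σ) L} := by
    ext L'
    constructor
    · rintro ⟨σ, hσ, hL'⟩
      obtain ⟨L, hL⟩ := hlog σ hσ
      have hσ0 : σ ∈ Δ₀ := by rw [hΔdef] at hσ; exact hσ.1
      exact ⟨L, ⟨σ, hσ, hL⟩, log_unique ((h0 σ hσ0).2 L hL) hL'⟩
    · rintro ⟨L, ⟨σ, hσ, hL⟩, rfl⟩
      have hσ0 : σ ∈ Δ₀ := by rw [hΔdef] at hσ; exact hσ.1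
      exact ⟨σ, hσ, (h0 σ hσ0).2 L hL⟩
  rw [e1, e3, ← Submodule.map_span, ← e2, hM, map_ratSpan]
  have e4 := t_LIE (mtLie (D2 B W) (D2' B W)) E (D2 B W) (D2' B W) (mt_lie _ _) hE (mt_mem _ _)
    (mt_mem' _ _)
  rw [e4]
  rfl

end

/-- P11g from GSUP and GSUB. -/
theorem t_GOODMT (gsup : S_GSUP) (gsub : S_GSUB) : S_GOODMT := by
  intro ℓ _ Γ _ T _ _ d B W G hd hG hM M hgood
  obtain ⟨E, hE, h, C, iC, iD, a, b, e, he, he1, hh, hD, hD'⟩ := hgood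
  have h2 := galLie_good B W G hd hG hM M E hE h
  refine fun g hg => ⟨fun hmon => ?_, fun hmt => ?_⟩
  · refine gsub ℓ _ Γ M.ρ _ C a b e he he1 hh ?_ ?_ g hg hmon
    · intro N
      obtain ⟨Δ, hΔ, hN⟩ := h N
      exact ⟨Δ, hΔ, fun σ hσ => (hN σ hσ).1⟩
    · intro L hL
      rw [← hD, ← hD', ← h2]
      exact hL
  · refine gsup ℓ _ Γ M.ρ _ C a b e he he1 hh ?_ g hg hmt
    intro x hx
    rw [← hD, ← hD'] at hx
    rw [h2]
    exact Submodule.subset_span ⟨x, hx, rfl⟩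

end Run7.h576.MT
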